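import Mathlib

/-!
# The one-dimensional Dirac operator with a square well: lower bound for the gap eigenvalues
-/

open MeasureTheory Set Filter Topology

namespace Pool.Agent.X187.DK

/-- The second Pauli matrix. -/
def sig2 : Matrix (Fin 2) (Fin 2) ℂ := !![0, -Complex.I; Complex.I, 0]

/-- The third Pauli matrix. -/
def sig3 : Matrix (Fin 2) (Fin 2) ℂ := !![1, 0; 0, -1]

/-- Eigenfunctions of the Dirac operator. -/
structure IsEigenfunction (m : ℝ) (V : ℝ → ℝ) (lam : ℝ) (Ψ : ℝ → Fin 2 → ℂ) : Prop where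
  sq : ∀ i, MemLp (fun x => Ψ x i) 2 (volume : Measure ℝ)
  ne : ∃ x, Ψ x ≠ 0
  eq : ∃ Ψ' : ℝ → Fin 2 → ℂ, (∀ i a b, IntervalIntegrable (fun x => Ψ' x i) volume a b) ∧
    (∀ i x, Ψ x i = Ψ 0 i + ∫ t in (0 : ℝ)..x, Ψ' t i) ∧
    ∀ᵐ x : ℝ, (-Complex.I) • sig2.mulVec (Ψ' x) + (m : ℂ) • sig3.mulVec (Ψ x)
      - (V x : ℂ) • Ψ x = (lam : ℂ) • Ψ x

/-- Eigenvalues in the gap. -/
def gapEig (m : ℝ) (V : ℝ → ℝ) : Set ℝ :=
  {lam | -m < lam ∧ lam < m ∧ ∃ Ψ, IsEigenfunction m V lam Ψ}

open Classical in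
/-- The lowest eigenvalue in the gap. -/
noncomputable def lamD (m : ℝ) (V : ℝ → ℝ) : ℝ :=
  if (gapEig m V).Nonempty then sInf (gapEig m V) else m

/-- The square well. -/
noncomputable def well (v b : ℝ) : ℝ → ℝ := (Icc (-b) b).indicator (fun _ => v)

theorem well_in {v b x : ℝ} (h : x ∈ Icc (-b) b) : well v b x = v := indicator_of_mem h _

theorem well_out {v b x : ℝ} (h : x ∉ Icc (-b) b) : well v b x = 0 := indicator_of_notMem h _

theorem well_meas (v b : ℝ) : Measurable (well v b) :=
  measurable_const.indicator measurableSet_Icc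

theorem well_ev {v b x : ℝ} (h1 : x ≠ b) (h2 : x ≠ -b) :
    well v b =ᶠ[𝓝 x] fun _ => well v b x := by
  rcases lt_or_gt_of_ne h1 with h | h
  · rcases lt_or_gt_of_ne h2 with h' | h'
    · filter_upwards [Iio_mem_nhds h'] with y hy
      rw [well_out, well_out]
      · intro hh; exact absurd hh.1 (not_le.2 h')
      · intro hh; exact absurd hh.1 (not_le.2 hy)
    · filter_upwards [Ioo_mem_nhds h' h] with y hy
      rw [well_in ⟨hy.1.le, hy.2.le⟩, well_in ⟨h'.le, h.le⟩]
  · filter_upwards [Ioi_mem_nhds h] with y hy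
    rw [well_out, well_out]
    · intro hh; exact absurd hh.2 (not_le.2 h)
    · intro hh; exact absurd hh.2 (not_le.2 hy)

theorem well_cont {v b x : ℝ} (h1 : x ≠ b) (h2 : x ≠ -b) : ContinuousAt (well v b) x :=
  (continuousAt_congr (well_ev h1 h2)).2 continuousAt_const

theorem ode {m v b lam : ℝ} {Ψ : ℝ → Fin 2 → ℂ} (h : IsEigenfunction m (well v b) lam Ψ) :
    Continuous (fun x => Ψ x 0) ∧ Continuous (fun x => Ψ x 1) ∧
    (∀ x, x ≠ b → x ≠ -b →
      HasDerivAt (fun x => Ψ x 0) (((m + lam + well v b x : ℝ) : ℂ) * Ψ x 1) x ∧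
      HasDerivAt (fun x => Ψ x 1) (((m - lam - well v b x : ℝ) : ℂ) * Ψ x 0) x) := by
  obtain ⟨Ψ', hI, hrep, hae⟩ := h.eq
  have hc : ∀ i, Continuous (fun x => Ψ x i) := by
    intro i
    have : (fun x => Ψ x i) = fun x => Ψ 0 i + ∫ t in (0 : ℝ)..x, Ψ' t i := by
      funext x; exact hrep i x
    rw [this]
    exact continuous_const.add (intervalIntegral.continuous_primitive (hI i) 0)
  have h0 : ∀ᵐ x : ℝ, Ψ' x 0 = ((m + lam + well v b x : ℝ) : ℂ) * Ψ x 1 := by
    filter_upwards [hae] with x hx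
    have := congrFun hx 1
    simp [sig2, sig3, Matrix.mulVec, dotProduct, Fin.sum_univ_two] at this
    have hI2 : Complex.I * Complex.I = -1 := Complex.I_mul_I
    push_cast
    linear_combination this + (Ψ' x 0) * hI2
  have h1 : ∀ᵐ x : ℝ, Ψ' x 1 = ((m - lam - well v b x : ℝ) : ℂ) * Ψ x 0 := by
    filter_upwards [hae] with x hx
    have := congrFun hx 0
    simp [sig2, sig3, Matrix.mulVec, dotProduct, Fin.sum_univ_two] at this
    have hI2 : Complex.I * Complex.I = -1 := Complex.I_mul_I
    push_cast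
    linear_combination -this + (Ψ' x 1) * hI2
  refine ⟨hc 0, hc 1, fun x hx1 hx2 => ⟨?_, ?_⟩⟩
  · have hg : ContinuousAt (fun x => ((m + lam + well v b x : ℝ) : ℂ) * Ψ x 1) x := by
      have h2 := well_cont (v := v) hx1 hx2
      have h3 : ContinuousAt (fun x => ((m + lam + well v b x : ℝ) : ℂ)) x :=
        Complex.continuous_ofReal.continuousAt.comp (continuousAt_const.add h2)
      exact h3.mul (hc 1).continuousAt
    have hm : Measurable (fun x => ((m + lam + well v b x : ℝ) : ℂ) * Ψ x 1) :=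
      (Complex.measurable_ofReal.comp (measurable_const.add (well_meas v b))).mul
        (hc 1).measurable
    have hi : IntervalIntegrable (fun x => ((m + lam + well v b x : ℝ) : ℂ) * Ψ x 1)
        volume 0 x := (hI 0 0 x).congr_ae (ae_restrict_of_ae h0)
    have hd := intervalIntegral.integral_hasDerivAt_right hi
      (hm.stronglyMeasurable.stronglyMeasurableAtFilter) hg
    have : (fun x => Ψ x 0)
        = fun x => Ψ 0 0 + ∫ t in (0 : ℝ)..x, ((m + lam + well v b t : ℝ) : ℂ) * Ψ t 1 := by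
      funext y
      rw [hrep 0 y]
      congr 1
      exact intervalIntegral.integral_congr_ae (h0.mono fun z hz _ => hz)
    rw [this]
    exact hd.const_add _
  · have hg : ContinuousAt (fun x => ((m - lam - well v b x : ℝ) : ℂ) * Ψ x 0) x := by
      have h2 := well_cont (v := v) hx1 hx2
      have h3 : ContinuousAt (fun x => ((m - lam - well v b x : ℝ) : ℂ)) x :=
        Complex.continuous_ofReal.continuousAt.comp (continuousAt_const.sub h2)
      exact h3.mul (hc 0).continuousAt
    have hm : Measurable (fun x => ((m - lam - well v b x : ℝ) : ℂ) * Ψ x 0) :=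
      (Complex.measurable_ofReal.comp (measurable_const.sub (well_meas v b))).mul
        (hc 0).measurable
    have hi : IntervalIntegrable (fun x => ((m - lam - well v b x : ℝ) : ℂ) * Ψ x 0)
        volume 0 x := (hI 1 0 x).congr_ae (ae_restrict_of_ae h1)
    have hd := intervalIntegral.integral_hasDerivAt_right hi
      (hm.stronglyMeasurable.stronglyMeasurableAtFilter) hg
    have : (fun x => Ψ x 1)
        = fun x => Ψ 0 1 + ∫ t in (0 : ℝ)..x, ((m - lam - well v b t : ℝ) : ℂ) * Ψ t 0 := by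
      funext y
      rw [hrep 1 y]
      congr 1
      exact intervalIntegral.integral_congr_ae (h1.mono fun z hz _ => hz)
    rw [this]
    exact hd.const_add _

/-- A continuous function with zero derivative on a connected open set is constant on its
closure. -/
theorem const_cl {S : Set ℝ} (hS : IsOpen S) (hp : IsPreconnected S) {f : ℝ → ℂ}
    (hf : Continuous f) (hd : ∀ x ∈ S, HasDerivAt f 0 x) {x y : ℝ} (hx : x ∈ closure S)
    (hy : y ∈ closure S) : f x = f y := by
  obtain ⟨c, hc⟩ := closure_nonempty_iff.1 ⟨x, hx⟩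
  have h1 : ∀ z ∈ S, f z = f c := fun z hz =>
    hS.is_const_of_deriv_eq_zero hp (fun w hw => (hd w hw).differentiableAt.differentiableWithinAt)
      (fun w hw => (hd w hw).deriv) hz hc
  have h2 : closure S ⊆ {z | f z = f c} :=
    closure_minimal (fun z hz => h1 z hz) (isClosed_eq hf continuous_const)
  have hx' : f x = f c := h2 hx
  have hy' : f y = f c := h2 hy
  rw [hx', hy']

/-- Solutions of `f' = μ f`. -/
theorem exp_cl {S : Set ℝ} (hS : IsOpen S) (hp : IsPreconnected S) {f : ℝ → ℂ} {mu : ℝ}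
    (hf : Continuous f) (hd : ∀ x ∈ S, HasDerivAt f ((mu : ℂ) * f x) x) {x y : ℝ}
    (hx : x ∈ closure S) (hy : y ∈ closure S) :
    f x = f y * (Real.exp (mu * (x - y)) : ℂ) := by
  have h := const_cl hS hp (f := fun z => f z * ((Real.exp (-(mu * z)) : ℝ) : ℂ))
    (hf.mul (Complex.continuous_ofReal.comp (Real.continuous_exp.comp
      (continuous_const.mul continuous_id).neg))) ?_ hx hy
  · have he : ((Real.exp (-(mu * x)) : ℝ) : ℂ) ≠ 0 :=
      Complex.ofReal_ne_zero.2 (Real.exp_pos _).ne'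
    apply mul_right_cancel₀ he
    rw [h, mul_assoc, ← Complex.ofReal_mul, ← Real.exp_add]
    congr 3
    ring
  · intro z hz
    have h1 : HasDerivAt (fun z : ℝ => Real.exp (-(mu * z))) (Real.exp (-(mu * z)) * (-mu)) z := by
      have := ((hasDerivAt_id z).const_mul mu).neg.exp
      simpa using this
    have h2 := (hd z hz).mul h1.ofReal_comp
    refine h2.congr_deriv ?_
    push_cast
    ring

/-- No function bounded below on a half-line is square integrable. -/
theorem zero_of_right {u : ℝ → ℂ} (hu : MemLp u 2 (volume : Measure ℝ)) {b c : ℝ}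
    (h : ∀ x, b ≤ x → c ≤ ‖u x‖) : c ≤ 0 := by
  by_contra hc
  push Not at hc
  have h1 : MemLp (fun _ : ℝ => c) 2 (volume.restrict (Ici b)) := by
    refine (hu.restrict (Ici b)).of_le aestronglyMeasurable_const ?_
    filter_upwards [ae_restrict_mem measurableSet_Ici] with x hx
    rw [Real.norm_eq_abs, abs_of_pos hc]
    exact h x hx
  rw [memLp_const_iff (by norm_num) (by norm_num)] at h1
  rcases h1 with h1 | h1
  · exact hc.ne' h1
  · simp at h1

theorem zero_of_left {u : ℝ → ℂ} (hu : MemLp u 2 (volume : Measure ℝ)) {b c : ℝ}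
    (h : ∀ x, x ≤ b → c ≤ ‖u x‖) : c ≤ 0 := by
  by_contra hc
  push Not at hc
  have h1 : MemLp (fun _ : ℝ => c) 2 (volume.restrict (Iic b)) := by
    refine (hu.restrict (Iic b)).of_le aestronglyMeasurable_const ?_
    filter_upwards [ae_restrict_mem measurableSet_Iic] with x hx
    rw [Real.norm_eq_abs, abs_of_pos hc]
    exact h x hx
  rw [memLp_const_iff (by norm_num) (by norm_num)] at h1
  rcases h1 with h1 | h1
  · exact hc.ne' h1
  · simp at h1

end Pool.Agent.X187.DK
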