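import Pool.Agent.X187.DK.Base

/-!
# Existence of an eigenfunction for a square well
-/

open MeasureTheory Set Filter Topology

namespace Pool.Agent.X187.DK

/-- `exp (-κ |x|)` is square integrable. -/
theorem exp_abs_int {a : ℝ} (ha : 0 < a) : Integrable (fun x : ℝ => Real.exp (-a * |x|)) := by
  rw [← integrableOn_univ, ← Iic_union_Ioi (a := (0 : ℝ))]
  refine IntegrableOn.union ?_ ?_
  · refine (integrableOn_exp_mul_Iic ha 0).congr_fun (fun x hx => ?_) measurableSet_Iic
    have hx' : x ≤ 0 := hx
    simp only [abs_of_nonpos hx']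
    congr 1; ring
  · refine (integrableOn_exp_mul_Ioi (neg_lt_zero.2 ha) 0).congr_fun (fun x hx => ?_)
      measurableSet_Ioi
    have hx' : 0 < x := hx
    simp only [abs_of_pos hx']

theorem memLp_of_bound {f : ℝ → ℂ} (hf : Continuous f) {C κ : ℝ} (hκ : 0 < κ)
    (h : ∀ x, ‖f x‖ ≤ C * Real.exp (-κ * |x|)) : MemLp f 2 (volume : Measure ℝ) := by
  rw [memLp_two_iff_integrable_sq_norm hf.aestronglyMeasurable]
  refine ((exp_abs_int (a := 2 * κ) (by positivity)).const_mul (C ^ 2)).mono'
    (hf.norm.pow 2).aestronglyMeasurable ?_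
  filter_upwards with x
  rw [Real.norm_eq_abs, abs_of_nonneg (by positivity)]
  calc ‖f x‖ ^ 2 ≤ (C * Real.exp (-κ * |x|)) ^ 2 := pow_le_pow_left₀ (norm_nonneg _) (h x) 2
    _ = C ^ 2 * Real.exp (-(2 * κ) * |x|) := by
      rw [mul_pow, ← Real.exp_nat_mul]; congr 2; push_cast; ring

/-- Clamping to `[-b, b]`. -/
noncomputable def clamp (b x : ℝ) : ℝ := max (-b) (min x b)

theorem clamp_cont (b : ℝ) : Continuous (clamp b) :=
  continuous_const.max (continuous_id.min continuous_const)

theorem clamp_mid {b x : ℝ} (h : x ∈ Icc (-b) b) : clamp b x = x := by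
  rw [clamp, min_eq_left h.2, max_eq_right h.1]

theorem clamp_right {b x : ℝ} (hb : 0 < b) (h : b ≤ x) : clamp b x = b := by
  rw [clamp, min_eq_right h, max_eq_right (by linarith)]

theorem clamp_left {b x : ℝ} (hb : 0 < b) (h : x ≤ -b) : clamp b x = -b := by
  rw [clamp, min_eq_left (by linarith), max_eq_left h]

theorem exist {m v b lam k κ : ℝ} (hb : 0 < b) (h1 : -m < lam) (hv0 : 0 ≤ v)
    (hv : m < lam + v) (hk : 0 < k) (hk2 : k ^ 2 = (lam + v) ^ 2 - m ^ 2) (hκ : 0 < κ)
    (hκ2 : κ ^ 2 = m ^ 2 - lam ^ 2)
    (hcond : (m + lam) * ((lam + v - m) / k * Real.sin (k * b)) = κ * Real.cos (k * b)) :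
    ∃ Ψ, IsEigenfunction m (well v b) lam Ψ := by
  set N : ℝ := (lam + v - m) / k with hN
  have hN0 : 0 < N := div_pos (by linarith) hk
  have hNk : N * k = lam + v - m := by rw [hN]; field_simp
  have hml : 0 < m + lam := by linarith
  have hPN : (m + lam + v) * N = k := by
    have : (m + lam + v) * N * k = k * k := by
      rw [mul_assoc, hNk]; nlinarith
    exact mul_right_cancel₀ hk.ne' this
  have hcond2 : κ * (N * Real.sin (k * b)) = (m - lam) * Real.cos (k * b) := by
    have : (m + lam) * (κ * (N * Real.sin (k * b)))
        = (m + lam) * ((m - lam) * Real.cos (k * b)) := by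
      linear_combination κ * hcond + Real.cos (k * b) * hκ2
    exact mul_left_cancel₀ hml.ne' this
  set φ : ℝ → ℝ := fun x => Real.cos (k * clamp b x) * Real.exp (-κ * |x - clamp b x|) with hφ
  set χ : ℝ → ℝ := fun x => -N * Real.sin (k * clamp b x) * Real.exp (-κ * |x - clamp b x|)
    with hχ
  have cc := clamp_cont b
  have cE : Continuous fun x => Real.exp (-κ * |x - clamp b x|) :=
    Real.continuous_exp.comp (continuous_const.mul (continuous_id.sub cc).abs)
  have cφ : Continuous φ :=
    (Real.continuous_cos.comp (continuous_const.mul cc)).mul cE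
  have cχ : Continuous χ :=
    (continuous_const.mul (Real.continuous_sin.comp (continuous_const.mul cc))).mul cE
  -- derivatives
  have hder : ∀ x, x ≠ b → x ≠ -b →
      HasDerivAt φ ((m + lam + well v b x) * χ x) x ∧
      HasDerivAt χ ((m - lam - well v b x) * φ x) x := by
    intro x hx1 hx2
    rcases lt_or_gt_of_ne hx1 with h | h
    · rcases lt_or_gt_of_ne hx2 with h' | h'
      · -- left
        have hw : well v b x = 0 := well_out (fun hh => absurd hh.1 (not_le.2 h'))
        have eφ : φ =ᶠ[𝓝 x] fun z => Real.cos (k * b) * Real.exp (κ * (z + b)) := by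
          filter_upwards [Iio_mem_nhds h'] with z hz
          have hz' : z < -b := hz
          simp only [hφ]
          rw [clamp_left hb hz'.le, abs_of_nonpos (by linarith), mul_neg, Real.cos_neg]
          congr 2; ring
        have eχ : χ =ᶠ[𝓝 x] fun z => N * Real.sin (k * b) * Real.exp (κ * (z + b)) := by
          filter_upwards [Iio_mem_nhds h'] with z hz
          have hz' : z < -b := hz
          simp only [hχ]
          rw [clamp_left hb hz'.le, abs_of_nonpos (by linarith), mul_neg k b, Real.sin_neg]
          have : -κ * -(z - -b) = κ * (z + b) := by ring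
          rw [this]; ring
        have dE : HasDerivAt (fun z : ℝ => Real.exp (κ * (z + b)))
            (Real.exp (κ * (x + b)) * κ) x := by
          have := (((hasDerivAt_id x).add_const b).const_mul κ).exp
          simpa using this
        constructor
        · refine ((dE.const_mul _).congr_of_eventuallyEq eφ).congr_deriv ?_
          rw [hw, eχ.self_of_nhds]
          linear_combination (-Real.exp (κ * (x + b))) * hcond
        · refine ((dE.const_mul _).congr_of_eventuallyEq eχ).congr_deriv ?_
          rw [hw, eφ.self_of_nhds]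
          linear_combination (Real.exp (κ * (x + b))) * hcond2
      · -- middle
        have hw : well v b x = v := well_in ⟨h'.le, h.le⟩
        have eφ : φ =ᶠ[𝓝 x] fun z => Real.cos (k * z) := by
          filter_upwards [Ioo_mem_nhds h' h] with z hz
          simp only [hφ]
          rw [clamp_mid ⟨hz.1.le, hz.2.le⟩]; simp
        have eχ : χ =ᶠ[𝓝 x] fun z => -N * Real.sin (k * z) := by
          filter_upwards [Ioo_mem_nhds h' h] with z hz
          simp only [hχ]
          rw [clamp_mid ⟨hz.1.le, hz.2.le⟩]; simp
        have dc : HasDerivAt (fun z : ℝ => Real.cos (k * z)) (-Real.sin (k * x) * k) x := by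
          have := ((hasDerivAt_id x).const_mul k).cos
          simpa using this
        have ds : HasDerivAt (fun z : ℝ => Real.sin (k * z)) (Real.cos (k * x) * k) x := by
          have := ((hasDerivAt_id x).const_mul k).sin
          simpa using this
        constructor
        · refine (dc.congr_of_eventuallyEq eφ).congr_deriv ?_
          rw [hw, eχ.self_of_nhds]
          linear_combination Real.sin (k * x) * hPN
        · refine ((ds.const_mul (-N)).congr_of_eventuallyEq eχ).congr_deriv ?_
          rw [hw, eφ.self_of_nhds]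
          linear_combination (-Real.cos (k * x)) * hNk
    · -- right
      have hw : well v b x = 0 := well_out (fun hh => absurd hh.2 (not_le.2 h))
      have eφ : φ =ᶠ[𝓝 x] fun z => Real.cos (k * b) * Real.exp (-κ * (z - b)) := by
        filter_upwards [Ioi_mem_nhds h] with z hz
        have hz' : b < z := hz
        simp only [hφ]
        rw [clamp_right hb hz'.le, abs_of_nonneg (by linarith)]
      have eχ : χ =ᶠ[𝓝 x] fun z => -N * Real.sin (k * b) * Real.exp (-κ * (z - b)) := by
        filter_upwards [Ioi_mem_nhds h] with z hz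
        have hz' : b < z := hz
        simp only [hχ]
        rw [clamp_right hb hz'.le, abs_of_nonneg (by linarith)]
      have dE : HasDerivAt (fun z : ℝ => Real.exp (-κ * (z - b)))
          (Real.exp (-κ * (x - b)) * (-κ)) x := by
        have := (((hasDerivAt_id x).sub_const b).const_mul (-κ)).exp
        simpa using this
      constructor
      · refine ((dE.const_mul _).congr_of_eventuallyEq eφ).congr_deriv ?_
        rw [hw, eχ.self_of_nhds]
        linear_combination (Real.exp (-κ * (x - b))) * hcond
      · refine ((dE.const_mul _).congr_of_eventuallyEq eχ).congr_deriv ?_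
        rw [hw, eφ.self_of_nhds]
        linear_combination (Real.exp (-κ * (x - b))) * hcond2
  -- bounds
  have hE1 : ∀ x, Real.exp (-κ * |x - clamp b x|) ≤ 1 := fun x =>
    Real.exp_le_one_iff.2 (by nlinarith [abs_nonneg (x - clamp b x)])
  have hE2 : ∀ x, Real.exp (-κ * |x - clamp b x|) ≤ Real.exp (κ * b) * Real.exp (-κ * |x|) := by
    intro x
    rw [← Real.exp_add]
    apply Real.exp_le_exp.2
    have h3 : |clamp b x| ≤ b := abs_le.2 ⟨le_max_left _ _, max_le (by linarith) (min_le_right _ _)⟩
    have h4 : |x| ≤ |x - clamp b x| + |clamp b x| := by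
      have := abs_add_le (x - clamp b x) (clamp b x)
      simpa using this
    nlinarith
  have bφ : ∀ x, |φ x| ≤ Real.exp (-κ * |x - clamp b x|) := by
    intro x
    simp only [hφ]
    rw [abs_mul, abs_of_pos (Real.exp_pos _)]
    exact mul_le_of_le_one_left (Real.exp_pos _).le (Real.abs_cos_le_one _)
  have bχ : ∀ x, |χ x| ≤ N * Real.exp (-κ * |x - clamp b x|) := by
    intro x
    simp only [hχ]
    rw [abs_mul, abs_of_pos (Real.exp_pos _), abs_mul, abs_neg, abs_of_pos hN0]
    exact mul_le_mul_of_nonneg_right
      (mul_le_of_le_one_right hN0.le (Real.abs_sin_le_one _)) (Real.exp_pos _).le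
  have hwb : ∀ x, |well v b x| ≤ v := by
    intro x
    by_cases hx : x ∈ Icc (-b) b
    · rw [well_in hx, abs_of_nonneg hv0]
    · rw [well_out hx, abs_zero]; exact hv0
  -- the eigenfunction
  have int0 : ∀ a c, IntervalIntegrable
      (fun x => (((m + lam + well v b x) * χ x : ℝ) : ℂ)) volume a c := by
    intro a c
    rw [intervalIntegrable_iff]
    refine Measure.integrableOn_of_bounded (M := (|m + lam| + v) * N) (by simp)
      (Complex.measurable_ofReal.comp ((measurable_const.add (well_meas v b)).mul
        cχ.measurable)).aestronglyMeasurable ?_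
    filter_upwards with x
    rw [Complex.norm_real, Real.norm_eq_abs, abs_mul]
    refine mul_le_mul ((abs_add_le _ _).trans (add_le_add le_rfl (hwb x)))
      ((bχ x).trans (mul_le_of_le_one_right hN0.le (hE1 x))) (abs_nonneg _) (by positivity)
  have int1 : ∀ a c, IntervalIntegrable
      (fun x => (((m - lam - well v b x) * φ x : ℝ) : ℂ)) volume a c := by
    intro a c
    rw [intervalIntegrable_iff]
    refine Measure.integrableOn_of_bounded (M := (|m - lam| + v) * 1) (by simp)
      (Complex.measurable_ofReal.comp ((measurable_const.sub (well_meas v b)).mul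
        cφ.measurable)).aestronglyMeasurable ?_
    filter_upwards with x
    rw [Complex.norm_real, Real.norm_eq_abs, abs_mul]
    refine mul_le_mul ((abs_sub _ _).trans (add_le_add le_rfl (hwb x)))
      ((bφ x).trans (hE1 x)) (abs_nonneg _) (by positivity)
  refine ⟨fun x => ![((φ x : ℝ) : ℂ), ((χ x : ℝ) : ℂ)], ⟨?_, ?_, ?_⟩⟩
  · intro i
    fin_cases i
    · show MemLp (fun x => ((φ x : ℝ) : ℂ)) 2 volume
      refine memLp_of_bound (Complex.continuous_ofReal.comp cφ) hκ (C := Real.exp (κ * b)) ?_
      intro x
      rw [Complex.norm_real, Real.norm_eq_abs]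
      exact (bφ x).trans (hE2 x)
    · show MemLp (fun x => ((χ x : ℝ) : ℂ)) 2 volume
      refine memLp_of_bound (Complex.continuous_ofReal.comp cχ) hκ
        (C := N * Real.exp (κ * b)) ?_
      intro x
      rw [Complex.norm_real, Real.norm_eq_abs, mul_assoc]
      exact (bχ x).trans (mul_le_mul_of_nonneg_left (hE2 x) hN0.le)
  · refine ⟨0, fun h => ?_⟩
    have h3 := congrFun h 0
    have h4 : φ 0 = 1 := by
      simp only [hφ]
      rw [clamp_mid ⟨by linarith, hb.le⟩]; simp
    simp [h4] at h3
  · refine ⟨fun x => ![(((m + lam + well v b x) * χ x : ℝ) : ℂ),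
      (((m - lam - well v b x) * φ x : ℝ) : ℂ)], ?_, ?_, ?_⟩
    · intro i a c
      fin_cases i
      · exact int0 a c
      · exact int1 a c
    · intro i x
      have hs : ({b, -b} : Set ℝ).Countable := (Set.toFinite _).countable
      fin_cases i
      · show ((φ x : ℝ) : ℂ) = ((φ 0 : ℝ) : ℂ)
          + ∫ t in (0 : ℝ)..x, (((m + lam + well v b t) * χ t : ℝ) : ℂ)
        rw [integral_eq_of_hasDerivAt_off_countable (fun t => ((φ t : ℝ) : ℂ)) _ hs
          (Complex.continuous_ofReal.comp cφ).continuousOn
          (fun t ht => by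
            have h5 := ht.2
            simp only [mem_insert_iff, mem_singleton_iff, not_or] at h5
            exact (hder t h5.1 h5.2).1.ofReal_comp) (int0 0 x)]
        ring
      · show ((χ x : ℝ) : ℂ) = ((χ 0 : ℝ) : ℂ)
          + ∫ t in (0 : ℝ)..x, (((m - lam - well v b t) * φ t : ℝ) : ℂ)
        rw [integral_eq_of_hasDerivAt_off_countable (fun t => ((χ t : ℝ) : ℂ)) _ hs
          (Complex.continuous_ofReal.comp cχ).continuousOn
          (fun t ht => by
            have h5 := ht.2
            simp only [mem_insert_iff, mem_singleton_iff, not_or] at h5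
            exact (hder t h5.1 h5.2).2.ofReal_comp) (int1 0 x)]
        ring
    · filter_upwards with x
      have hI2 : Complex.I * Complex.I = -1 := Complex.I_mul_I
      funext i
      fin_cases i
      · simp [sig2, sig3, dotProduct, Fin.sum_univ_two, Matrix.mulVec]
        linear_combination (((m : ℂ) - lam - well v b x) * φ x) * hI2
      · simp [sig2, sig3, dotProduct, Fin.sum_univ_two, Matrix.mulVec]
        linear_combination (-((m : ℂ) + lam + well v b x) * χ x) * hI2

end Pool.Agent.X187.DK
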