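import Pool.Agent.X187.DK.Lower
import Pool.Agent.X187.DK.Exist

/-!
# The lowest gap eigenvalue is not a concave function of the potential
-/

open MeasureTheory Set Filter Topology

namespace Pool.Agent.X187.DK

theorem lamD_le {m : ℝ} {V : ℝ → ℝ} {lam : ℝ} (h : lam ∈ gapEig m V) : lamD m V ≤ lam := by
  rw [lamD, if_pos ⟨lam, h⟩]
  exact csInf_le ⟨-m, fun z hz => hz.1.le⟩ h

theorem le_lamD {m : ℝ} {V : ℝ → ℝ} {c : ℝ} (hc : c ≤ m) (h : ∀ lam ∈ gapEig m V, c ≤ lam) :
    c ≤ lamD m V := by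
  rw [lamD]
  split_ifs with hn
  · exact le_csInf hn h
  · exact hc

theorem well_int {v b : ℝ} (hb : 0 < b) : Integrable (well v b) ∧ ∫ x, well v b x = 2 * (v * b) := by
  constructor
  · exact (integrable_indicator_iff measurableSet_Icc).2 (integrableOn_const (by simp))
  · rw [show (fun x => well v b x) = (Icc (-b) b).indicator (fun _ => v) from rfl,
      integral_indicator measurableSet_Icc, setIntegral_const, smul_eq_mul,
      Measure.real, Real.volume_Icc, ENNReal.toReal_ofReal (by linarith)]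
    ring

theorem well_nonneg {v b : ℝ} (hv : 0 ≤ v) (x : ℝ) : 0 ≤ well v b x :=
  indicator_nonneg (fun _ _ => hv) x

theorem main (m : ℝ) (hm : 0 < m) :
    ∃ V W : ℝ → ℝ, (Measurable V ∧ (∀ x, 0 ≤ V x) ∧ Integrable V ∧ ∫ x, V x < Real.pi) ∧
      (Measurable W ∧ (∀ x, 0 ≤ W x) ∧ Integrable W ∧ ∫ x, W x < Real.pi) ∧
      lamD m (fun x => 1 / 2 * V x + (1 - 1 / 2) * W x)
        < 1 / 2 * lamD m V + (1 - 1 / 2) * lamD m W := by
  have hpi := Real.pi_pos
  set s1 : ℝ := Real.sqrt (7599 / 10000) with hs1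
  set s2 : ℝ := Real.sqrt (22797 / 4) with hs2
  have s1p : 0 < s1 := Real.sqrt_pos.2 (by norm_num)
  have s2p : 0 < s2 := Real.sqrt_pos.2 (by norm_num)
  have s1sq : s1 ^ 2 = 7599 / 10000 := Real.sq_sqrt (by norm_num)
  have s2sq : s2 ^ 2 = 22797 / 4 := Real.sq_sqrt (by norm_num)
  have s12 : s1 * s2 = 7599 / 200 * Real.sqrt 3 := by
    rw [hs1, hs2, ← Real.sqrt_mul (by norm_num),
      show (7599 / 10000 * (22797 / 4) : ℝ) = (7599 / 200) ^ 2 * 3 by norm_num,
      Real.sqrt_mul (by positivity), Real.sqrt_sq (by norm_num)]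
  have s2lo : 7549 / 100 ≤ s2 := by
    apply le_of_sq_le_sq _ s2p.le
    rw [s2sq]; norm_num
  have s2hi : s2 ≤ 151 / 2 := by
    apply le_of_sq_le_sq _ (by norm_num)
    rw [s2sq]; norm_num
  set k : ℝ := m * s2 with hk
  have hk0 : 0 < k := mul_pos hm s2p
  set b : ℝ := Real.pi / (3 * k) with hb
  have hb0 : 0 < b := by positivity
  have hkb : k * b = Real.pi / 3 := by rw [hb]; field_simp
  set v : ℝ := 7599 / 100 * m with hv
  have hklo : 7549 / 100 * m ≤ k := by rw [hk]; nlinarith
  have hkhi : k ≤ 151 / 2 * m := by rw [hk]; nlinarith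
  have hvb : v * b ≤ 11 / 32 * Real.pi := by
    have h1 : v ≤ 33 / 32 * k := by rw [hv]; nlinarith
    calc v * b ≤ 33 / 32 * k * b := mul_le_mul_of_nonneg_right h1 hb0.le
      _ = 33 / 32 * (k * b) := by ring
      _ = 11 / 32 * Real.pi := by rw [hkb]; ring
  set v1 : ℝ := 3 / 4 * k with hv1
  set v2 : ℝ := 2 * v - v1 with hv2
  have hv1b : v1 * b = Real.pi / 4 := by
    rw [hv1, mul_assoc, hkb]; ring
  have hv2b : v2 * b ≤ 7 / 16 * Real.pi := by
    rw [hv2, sub_mul, hv1b, mul_assoc]; linarith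
  have hv1m : 2 * m < v1 := by rw [hv1]; linarith
  have hv2m : 2 * m < v2 := by rw [hv2, hv1, hv]; linarith
  have hmid : (fun x => 1 / 2 * well v1 b x + (1 - 1 / 2) * well v2 b x) = well v b := by
    funext x
    by_cases hx : x ∈ Icc (-b) b
    · rw [well_in hx, well_in hx, well_in hx, hv2]; ring
    · rw [well_out hx, well_out hx, well_out hx]; ring
  obtain ⟨i1, j1⟩ := well_int (v := v1) hb0
  obtain ⟨i2, j2⟩ := well_int (v := v2) hb0
  refine ⟨well v1 b, well v2 b,
    ⟨well_meas _ _, well_nonneg (by linarith), i1, by rw [j1, hv1b]; linarith⟩,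
    ⟨well_meas _ _, well_nonneg (by linarith), i2, by rw [j2]; linarith⟩, ?_⟩
  rw [hmid]
  -- the upper bound at the midpoint
  have hup : lamD m (well v b) ≤ -(49 / 100) * m := by
    apply lamD_le
    refine ⟨by linarith, by linarith, ?_⟩
    refine exist (k := k) (κ := m * s1) hb0 (by linarith) (by positivity) (by rw [hv]; linarith)
      hk0 ?_ (mul_pos hm s1p) ?_ ?_
    · rw [hk, mul_pow, s2sq, hv]; ring
    · rw [mul_pow, s1sq]; ring
    · rw [hkb, Real.sin_pi_div_three, Real.cos_pi_div_three]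
      have e : m * s1 = 7599 / 200 * Real.sqrt 3 * m ^ 2 / k := by
        rw [← s12, hk]; field_simp
      rw [e, hv]
      field_simp
      ring
  -- the lower bound for the first well
  have hlo1 : 0 ≤ lamD m (well v1 b) := by
    apply le_lamD hm.le
    rintro lam ⟨h1, h2, Ψ, hΨ⟩
    by_contra hneg
    push Not at hneg
    have := lower hm hb0 hv1m (by rw [hv1b]; linarith) h1 hneg hΨ
    rw [hv1b, show 2 * (Real.pi / 4) = Real.pi / 2 by ring, Real.cos_pi_div_two] at this
    linarith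
  -- the lower bound for the second well
  have hcos : -(93 / 100) ≤ Real.cos (2 * (v2 * b)) := by
    have h1 : Real.cos (7 / 8 * Real.pi) ≤ Real.cos (2 * (v2 * b)) := by
      apply Real.cos_le_cos_of_nonneg_of_le_pi
      · have : 0 < v2 * b := mul_pos (by linarith) hb0
        linarith
      · linarith
      · linarith
    have h2 : Real.cos (7 / 8 * Real.pi) = -(Real.sqrt (2 + Real.sqrt 2) / 2) := by
      rw [← Real.cos_pi_div_eight, ← Real.cos_pi_sub]
      congr 1; ring
    have h3 : Real.sqrt (2 + Real.sqrt 2) ≤ 186 / 100 := by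
      apply Real.sqrt_le_iff.2
      refine ⟨by norm_num, ?_⟩
      have : Real.sqrt 2 ≤ 1415 / 1000 := by
        apply Real.sqrt_le_iff.2
        exact ⟨by norm_num, by norm_num⟩
      linarith
    linarith
  have hlo2 : -(93 / 100) * m ≤ lamD m (well v2 b) := by
    apply le_lamD (by linarith)
    rintro lam ⟨h1, h2, Ψ, hΨ⟩
    by_cases hneg : lam < 0
    · have := lower hm hb0 hv2m (by linarith) h1 hneg hΨ
      nlinarith
    · push Not at hneg
      nlinarith
  linarith

end Pool.Agent.X187.DK
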