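import Pool.Agent.X187.DK.Base

/-!
# Lower bound for the eigenvalues of a square well
-/

open MeasureTheory Set Filter Topology

namespace Pool.Agent.X187.DK

/-- Negative eigenvalues of the well of integral `2 v b < π` are larger than
`m cos (2 v b)`. -/
theorem lower {m v b lam : ℝ} (hm : 0 < m) (hb : 0 < b) (hv : 2 * m < v)
    (hvb : v * b < Real.pi / 2) (h1 : -m < lam) (h0 : lam < 0) {Ψ : ℝ → Fin 2 → ℂ}
    (h : IsEigenfunction m (well v b) lam Ψ) : m * Real.cos (2 * (v * b)) < lam := by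
  by_contra hcon
  push Not at hcon
  obtain ⟨c0, c1, hd⟩ := ode h
  -- constants
  set κ : ℝ := Real.sqrt (m ^ 2 - lam ^ 2) with hκ
  have hκ2 : κ ^ 2 = m ^ 2 - lam ^ 2 := Real.sq_sqrt (by nlinarith)
  have hκ0 : 0 < κ := Real.sqrt_pos.2 (by nlinarith)
  have hml : 0 < m + lam := by linarith
  set P : ℝ := m + lam + v with hP
  have hP0 : 0 < P := by linarith
  set k : ℝ := Real.sqrt ((lam + v) ^ 2 - m ^ 2) with hk
  have hkpos : 0 < (lam + v) ^ 2 - m ^ 2 := by nlinarith
  have hk2 : k ^ 2 = (lam + v) ^ 2 - m ^ 2 := Real.sq_sqrt hkpos.le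
  have hk0 : 0 < k := Real.sqrt_pos.2 hkpos
  have hkv : k < v := by
    apply lt_of_pow_lt_pow_left₀ 2 (by linarith)
    nlinarith
  have hkP : k < P := by
    apply lt_of_pow_lt_pow_left₀ 2 hP0.le
    nlinarith
  -- trigonometric inequality
  have hvp : 0 < v := by linarith
  set y : ℝ := v * b with hy
  have hy0 : 0 < y := by rw [hy]; exact mul_pos hvp hb
  have hkb0 : 0 < k * b := by positivity
  have hkby : k * b < y := by
    rw [hy]; exact mul_lt_mul_of_pos_right hkv hb
  have hcy : 0 < Real.cos y := Real.cos_pos_of_mem_Ioo ⟨by linarith, hvb⟩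
  have hsy : 0 < Real.sin y := Real.sin_pos_of_pos_of_lt_pi hy0 (by linarith [Real.pi_pos])
  have hck : 0 < Real.cos (k * b) := Real.cos_pos_of_mem_Ioo ⟨by linarith, by linarith⟩
  have hsk : 0 < Real.sin (k * b) :=
    Real.sin_pos_of_pos_of_lt_pi hkb0 (by linarith [Real.pi_pos])
  have ht1 : (m + lam) * Real.sin y ≤ κ * Real.cos y := by
    apply le_of_sq_le_sq _ (by positivity)
    have e1 : (κ * Real.cos y) ^ 2 - ((m + lam) * Real.sin y) ^ 2
        = (m + lam) * (m * Real.cos (2 * y) - lam) := by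
      rw [Real.cos_two_mul]
      have : Real.sin y ^ 2 = 1 - Real.cos y ^ 2 := by
        have := Real.sin_sq_add_cos_sq y; linarith
      rw [mul_pow, hκ2, mul_pow, this]; ring
    nlinarith [mul_nonneg hml.le (sub_nonneg.2 hcon)]
  have ht2 : 0 < Real.sin y * Real.cos (k * b) - Real.cos y * Real.sin (k * b) := by
    rw [← Real.sin_sub]
    exact Real.sin_pos_of_pos_of_lt_pi (by linarith) (by linarith [Real.pi_pos])
  have ht3 : (m + lam) * Real.sin (k * b) < κ * Real.cos (k * b) := by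
    have : 0 < Real.cos y * (κ * Real.cos (k * b) - (m + lam) * Real.sin (k * b)) := by
      nlinarith [mul_pos hml ht2, mul_nonneg hck.le (sub_nonneg.2 ht1)]
    have := (mul_pos_iff_of_pos_left hcy).1 this
    linarith
  -- exterior solutions
  set u : ℝ → ℂ := fun x => ((m + lam : ℝ) : ℂ) * Ψ x 1 + (κ : ℂ) * Ψ x 0 with hu
  set w : ℝ → ℂ := fun x => ((m + lam : ℝ) : ℂ) * Ψ x 1 - (κ : ℂ) * Ψ x 0 with hw
  have cu : Continuous u := (continuous_const.mul c1).add (continuous_const.mul c0)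
  have cw : Continuous w := (continuous_const.mul c1).sub (continuous_const.mul c0)
  have hκc : (κ : ℂ) ^ 2 = (m : ℂ) ^ 2 - (lam : ℂ) ^ 2 := by exact_mod_cast hκ2
  have hext : ∀ x, x ∉ Icc (-b) b → HasDerivAt u ((κ : ℂ) * u x) x ∧
      HasDerivAt w (((-κ : ℝ) : ℂ) * w x) x := by
    intro x hx
    have hx1 : x ≠ b := by rintro rfl; exact hx ⟨by linarith, le_rfl⟩
    have hx2 : x ≠ -b := by rintro rfl; exact hx ⟨le_rfl, by linarith⟩
    obtain ⟨d0, d1⟩ := hd x hx1 hx2
    rw [well_out hx] at d0 d1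
    constructor
    · refine ((d1.const_mul _).add (d0.const_mul _)).congr_deriv ?_
      simp only [hu]
      push_cast
      linear_combination (-(Ψ x 0)) * hκc
    · refine ((d1.const_mul _).sub (d0.const_mul _)).congr_deriv ?_
      simp only [hw]
      push_cast
      linear_combination (-(Ψ x 0)) * hκc
  have mu : MemLp u 2 (volume : Measure ℝ) := ((h.sq 1).const_mul _).add ((h.sq 0).const_mul _)
  have mw : MemLp w 2 (volume : Measure ℝ) := ((h.sq 1).const_mul _).sub ((h.sq 0).const_mul _)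
  have hnR : ∀ x ∈ Ioi b, x ∉ Icc (-b) b := fun x hx hh => absurd hh.2 (not_le.2 hx)
  have hnL : ∀ x ∈ Iio (-b), x ∉ Icc (-b) b := fun x hx hh => absurd hh.1 (not_le.2 hx)
  have hbR : b ∈ closure (Ioi b) := by rw [closure_Ioi]; exact self_mem_Ici
  have hbL : -b ∈ closure (Iio (-b)) := by rw [closure_Iio]; exact self_mem_Iic
  have uR : ∀ x, b ≤ x → u x = u b * (Real.exp (κ * (x - b)) : ℂ) := fun x hx =>
    exp_cl isOpen_Ioi isPreconnected_Ioi cu (fun z hz => (hext z (hnR z hz)).1)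
      (by rw [closure_Ioi]; exact hx) hbR
  have wR : ∀ x, b ≤ x → w x = w b * (Real.exp (-κ * (x - b)) : ℂ) := fun x hx =>
    exp_cl isOpen_Ioi isPreconnected_Ioi cw (fun z hz => (hext z (hnR z hz)).2)
      (by rw [closure_Ioi]; exact hx) hbR
  have uL : ∀ x, x ≤ -b → u x = u (-b) * (Real.exp (κ * (x - -b)) : ℂ) := fun x hx =>
    exp_cl isOpen_Iio isPreconnected_Iio cu (fun z hz => (hext z (hnL z hz)).1)
      (by rw [closure_Iio]; exact hx) hbL
  have wL : ∀ x, x ≤ -b → w x = w (-b) * (Real.exp (-κ * (x - -b)) : ℂ) := fun x hx =>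
    exp_cl isOpen_Iio isPreconnected_Iio cw (fun z hz => (hext z (hnL z hz)).2)
      (by rw [closure_Iio]; exact hx) hbL
  have ub : u b = 0 := by
    have := zero_of_right mu (b := b) (c := ‖u b‖) (fun x hx => by
      rw [uR x hx, norm_mul, Complex.norm_real, Real.norm_eq_abs, abs_of_pos (Real.exp_pos _)]
      exact le_mul_of_one_le_right (norm_nonneg _)
        (Real.one_le_exp (mul_nonneg hκ0.le (by linarith))))
    exact norm_le_zero_iff.1 this
  have wb : w (-b) = 0 := by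
    have := zero_of_left mw (b := -b) (c := ‖w (-b)‖) (fun x hx => by
      rw [wL x hx, norm_mul, Complex.norm_real, Real.norm_eq_abs, abs_of_pos (Real.exp_pos _)]
      exact le_mul_of_one_le_right (norm_nonneg _)
        (Real.one_le_exp (by nlinarith)))
    exact norm_le_zero_iff.1 this
  -- interior solutions
  set A : ℝ → ℂ := fun x => ((Real.cos (k * x) : ℝ) : ℂ) * Ψ x 0
    - ((P / k * Real.sin (k * x) : ℝ) : ℂ) * Ψ x 1 with hA
  set B : ℝ → ℂ := fun x => ((Real.sin (k * x) : ℝ) : ℂ) * Ψ x 0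
    + ((P / k * Real.cos (k * x) : ℝ) : ℂ) * Ψ x 1 with hB
  have ccos : Continuous fun x : ℝ => ((Real.cos (k * x) : ℝ) : ℂ) :=
    Complex.continuous_ofReal.comp (Real.continuous_cos.comp (continuous_const.mul continuous_id))
  have csin : Continuous fun x : ℝ => ((Real.sin (k * x) : ℝ) : ℂ) :=
    Complex.continuous_ofReal.comp (Real.continuous_sin.comp (continuous_const.mul continuous_id))
  have ccos' : Continuous fun x : ℝ => ((P / k * Real.cos (k * x) : ℝ) : ℂ) :=
    Complex.continuous_ofReal.comp (continuous_const.mul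
      (Real.continuous_cos.comp (continuous_const.mul continuous_id)))
  have csin' : Continuous fun x : ℝ => ((P / k * Real.sin (k * x) : ℝ) : ℂ) :=
    Complex.continuous_ofReal.comp (continuous_const.mul
      (Real.continuous_sin.comp (continuous_const.mul continuous_id)))
  have cA : Continuous A := (ccos.mul c0).sub (csin'.mul c1)
  have cB : Continuous B := (csin.mul c0).add (ccos'.mul c1)
  have hPN : P * (m - lam - v) = -k ^ 2 := by rw [hk2, hP]; ring
  have hPk : P / k * (m - lam - v) = -k := by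
    field_simp; linarith
  have hkP' : k * (P / k) = P := by field_simp
  have hPkc : ((P / k : ℝ) : ℂ) * ((m : ℂ) - lam - v) = -(k : ℂ) := by exact_mod_cast hPk
  have hkPc : (k : ℂ) * ((P / k : ℝ) : ℂ) = (P : ℂ) := by exact_mod_cast hkP'
  have hPc : (P : ℂ) = (m : ℂ) + lam + v := by rw [hP]; push_cast; ring
  have dcos : ∀ x : ℝ, HasDerivAt (fun x : ℝ => ((Real.cos (k * x) : ℝ) : ℂ))
      (((-Real.sin (k * x) * k : ℝ)) : ℂ) x := by
    intro x
    have := ((hasDerivAt_id x).const_mul k).cos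
    simp only [id, mul_one] at this
    exact this.ofReal_comp
  have dsin : ∀ x : ℝ, HasDerivAt (fun x : ℝ => ((Real.sin (k * x) : ℝ) : ℂ))
      (((Real.cos (k * x) * k : ℝ)) : ℂ) x := by
    intro x
    have := ((hasDerivAt_id x).const_mul k).sin
    simp only [id, mul_one] at this
    exact this.ofReal_comp
  have hint : ∀ x ∈ Ioo (-b) b, HasDerivAt A 0 x ∧ HasDerivAt B 0 x := by
    intro x hx
    obtain ⟨d0, d1⟩ := hd x hx.2.ne hx.1.ne'
    rw [well_in ⟨hx.1.le, hx.2.le⟩] at d0 d1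
    constructor
    · have e : A = fun x => ((Real.cos (k * x) : ℝ) : ℂ) * Ψ x 0
          - (((P / k : ℝ) : ℂ) * ((Real.sin (k * x) : ℝ) : ℂ)) * Ψ x 1 := by
        funext z; simp only [hA]; push_cast; ring
      rw [e]
      refine (((dcos x).mul d0).sub (((dsin x).const_mul _).mul d1)).congr_deriv ?_
      simp only [Complex.ofReal_mul, Complex.ofReal_neg, Complex.ofReal_add, Complex.ofReal_sub]
      linear_combination (-((Real.sin (k * x) : ℝ) : ℂ) * Ψ x 0) * hPkc
        - ((Real.cos (k * x) : ℝ) : ℂ) * Ψ x 1 * hkPc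
        - ((Real.cos (k * x) : ℝ) : ℂ) * Ψ x 1 * hPc
    · have e : B = fun x => ((Real.sin (k * x) : ℝ) : ℂ) * Ψ x 0
          + (((P / k : ℝ) : ℂ) * ((Real.cos (k * x) : ℝ) : ℂ)) * Ψ x 1 := by
        funext z; simp only [hB]; push_cast; ring
      rw [e]
      refine (((dsin x).mul d0).add (((dcos x).const_mul _).mul d1)).congr_deriv ?_
      simp only [Complex.ofReal_mul, Complex.ofReal_neg, Complex.ofReal_add, Complex.ofReal_sub]
      linear_combination (((Real.cos (k * x) : ℝ) : ℂ) * Ψ x 0) * hPkc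
        - ((Real.sin (k * x) : ℝ) : ℂ) * Ψ x 1 * hkPc
        - ((Real.sin (k * x) : ℝ) : ℂ) * Ψ x 1 * hPc
  have hcl : closure (Ioo (-b) b) = Icc (-b) b := closure_Ioo (by linarith)
  have hAc : ∀ x ∈ Icc (-b) b, ∀ z ∈ Icc (-b) b, A x = A z := fun x hx z hz =>
    const_cl isOpen_Ioo isPreconnected_Ioo cA (fun t ht => (hint t ht).1)
      (hcl ▸ hx) (hcl ▸ hz)
  have hBc : ∀ x ∈ Icc (-b) b, ∀ z ∈ Icc (-b) b, B x = B z := fun x hx z hz =>
    const_cl isOpen_Ioo isPreconnected_Ioo cB (fun t ht => (hint t ht).2)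
      (hcl ▸ hx) (hcl ▸ hz)
  have mb : b ∈ Icc (-b) b := ⟨by linarith, le_rfl⟩
  have mb' : -b ∈ Icc (-b) b := ⟨le_rfl, by linarith⟩
  have eA := hAc b mb (-b) mb'
  have eB := hBc b mb (-b) mb'
  simp only [hA, mul_neg, Real.cos_neg, Real.sin_neg] at eA
  simp only [hB, mul_neg, Real.cos_neg, Real.sin_neg] at eB
  have ub' : ((m + lam : ℝ) : ℂ) * Ψ b 1 + (κ : ℂ) * Ψ b 0 = 0 := ub
  have wb' : ((m + lam : ℝ) : ℂ) * Ψ (-b) 1 - (κ : ℂ) * Ψ (-b) 0 = 0 := wb
  have hmlc : ((m + lam : ℝ) : ℂ) ≠ 0 := Complex.ofReal_ne_zero.2 hml.ne'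
  set C : ℝ := Real.cos (k * b) with hC
  set S : ℝ := Real.sin (k * b) with hS
  -- the two linear relations
  have r1 : (((m + lam) * C + P / k * S * κ : ℝ) : ℂ) * (Ψ b 0 - Ψ (-b) 0) = 0 := by
    push_cast at eA ub' wb' ⊢
    linear_combination ((m : ℂ) + lam) * eA + ((P : ℂ) / k * S) * (ub' + wb')
  have r2 : (((m + lam) * S - P / k * C * κ : ℝ) : ℂ) * (Ψ b 0 + Ψ (-b) 0) = 0 := by
    push_cast at eB ub' wb' ⊢
    linear_combination ((m : ℂ) + lam) * eB - ((P : ℂ) / k * C) * (ub' - wb')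
  have hPk1 : 1 < P / k := (one_lt_div hk0).2 hkP
  have n1 : (((m + lam) * C + P / k * S * κ : ℝ) : ℂ) ≠ 0 := by
    apply Complex.ofReal_ne_zero.2
    have : 0 < (m + lam) * C + P / k * S * κ := by positivity
    exact this.ne'
  have n2 : (((m + lam) * S - P / k * C * κ : ℝ) : ℂ) ≠ 0 := by
    apply Complex.ofReal_ne_zero.2
    have : (m + lam) * S - P / k * C * κ < 0 := by
      have hCκ : 0 < C * κ := mul_pos hck hκ0
      nlinarith [mul_pos (sub_pos.2 hPk1) hCκ]
    exact this.ne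
  have z1 : Ψ b 0 - Ψ (-b) 0 = 0 := (mul_eq_zero.1 r1).resolve_left n1
  have z2 : Ψ b 0 + Ψ (-b) 0 = 0 := (mul_eq_zero.1 r2).resolve_left n2
  have p0 : Ψ b 0 = 0 := by linear_combination (z1 + z2) / 2
  have q0 : Ψ (-b) 0 = 0 := by linear_combination (z2 - z1) / 2
  have p1 : Ψ b 1 = 0 := by
    rw [p0, mul_zero, add_zero] at ub'
    exact (mul_eq_zero.1 ub').resolve_left hmlc
  have q1 : Ψ (-b) 1 = 0 := by
    rw [q0, mul_zero, sub_zero] at wb'
    exact (mul_eq_zero.1 wb').resolve_left hmlc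
  -- the solution vanishes
  have hκne : (κ : ℂ) ≠ 0 := Complex.ofReal_ne_zero.2 hκ0.ne'
  have fin : ∀ x, u x = 0 → w x = 0 → Ψ x = 0 := by
    intro x hx1 hx2
    simp only [hu] at hx1
    simp only [hw] at hx2
    have e1 : Ψ x 1 = 0 := by
      have : ((m + lam : ℝ) : ℂ) * Ψ x 1 = 0 := by linear_combination (hx1 + hx2) / 2
      exact (mul_eq_zero.1 this).resolve_left hmlc
    have e0 : Ψ x 0 = 0 := by
      have : (κ : ℂ) * Ψ x 0 = 0 := by linear_combination (hx1 - hx2) / 2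
      exact (mul_eq_zero.1 this).resolve_left hκne
    funext i
    fin_cases i
    · exact e0
    · exact e1
  obtain ⟨x, hx⟩ := h.ne
  apply hx
  by_cases hx1 : b ≤ x
  · apply fin
    · rw [uR x hx1, ub, zero_mul]
    · rw [wR x hx1]; simp [hw, p0, p1]
  · by_cases hx2 : x ≤ -b
    · apply fin
      · rw [uL x hx2]; simp [hu, q0, q1]
      · rw [wL x hx2, wb, zero_mul]
    · push Not at hx1 hx2
      have hxm : x ∈ Icc (-b) b := ⟨hx2.le, hx1.le⟩
      have a1 : A x = 0 := by rw [hAc x hxm b mb]; simp [hA, p0, p1]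
      have b1 : B x = 0 := by rw [hBc x hxm b mb]; simp [hB, p0, p1]
      simp only [hA] at a1
      simp only [hB] at b1
      have hcs : ((Real.cos (k * x) : ℝ) : ℂ) ^ 2 + ((Real.sin (k * x) : ℝ) : ℂ) ^ 2 = 1 := by
        exact_mod_cast Real.cos_sq_add_sin_sq (k * x)
      have hPkne : ((P / k : ℝ) : ℂ) ≠ 0 := Complex.ofReal_ne_zero.2 (by positivity)
      have e0 : Ψ x 0 = 0 := by
        rw [Complex.ofReal_mul] at a1 b1
        linear_combination ((Real.cos (k * x) : ℝ) : ℂ) * a1 + ((Real.sin (k * x) : ℝ) : ℂ) * b1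
          - (Ψ x 0) * hcs
      have e1 : Ψ x 1 = 0 := by
        rw [Complex.ofReal_mul] at a1 b1
        have : ((P / k : ℝ) : ℂ) * Ψ x 1 = 0 := by
          linear_combination ((Real.cos (k * x) : ℝ) : ℂ) * b1
            - ((Real.sin (k * x) : ℝ) : ℂ) * a1 - ((P / k : ℝ) : ℂ) * Ψ x 1 * hcs
        exact (mul_eq_zero.1 this).resolve_left hPkne
      funext i
      fin_cases i
      · exact e0
      · exact e1

end Pool.Agent.X187.DK
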